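import Pool.Agent.Helper61.LN.GoalsC
import Pool.Agent.Helper61.LN.Base
import Pool.Agent.Helper35.Skl.Kmt

/-!
# PROJECT LN (MP_c65973_gt), packet SC: the bracket of a connected sum with a torus knot
-/

set_option autoImplicit false

namespace Pool.Agent.Helper70.LN.SC

open Pool.Agent.Helper31.Sk Pool.Agent.Helper35.Skl Pool.Agent.Helper61.LN

theorem bk_con {a b : ℚ} (hab : a * b = 1) (n : ℕ) (w : Word) (hw : IsKnot w) :
    (a ^ 2 + b ^ 2) * bk a b (con (TT n) w) =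
      (b ^ n * ((a ^ 2 + b ^ 2) ^ 2 - 1) + (-a ^ 3) ^ n) * bk a b w := by
  have hne : w ≠ [] := by
    intro h
    have := hw.2
    rw [h] at this
    simp [orients] at this
  obtain ⟨w', e, h2⟩ := first_piece hw.1 hne
  subst e
  have hu : Legal 0 [(0, Gen.cup), (1, Gen.cup)] 4 := by
    simp [Legal, Gen.src, Gen.tgt]
  have hu0 : Legal 0 [(0, Gen.cup)] 2 := by
    simp [Legal, Gen.src, Gen.tgt]
  have h := bk_twN hab hu (i := 0) (by norm_num) n ((1, Gen.cap) :: w')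
  have e0 : con (TT n) ((0, Gen.cup) :: w') =
      [(0, Gen.cup), (1, Gen.cup)] ++ (List.replicate n (0, Gen.neg) ++ (1, Gen.cap) :: w') := by
    simp [con, TT]
  have e1 : bk a b ([(0, Gen.cup), (1, Gen.cup)] ++ (1, Gen.cap) :: w') =
      (a ^ 2 + b ^ 2) * bk a b ((0, Gen.cup) :: w') := by
    have := bk_loop (a := a) (b := b) hu0 (i := 1) (by norm_num) w'
    simpa using this
  have e2 : bk a b ([(0, Gen.cup), (1, Gen.cup)] ++ (0, Gen.cap) :: (0, Gen.cup) ::
      (1, Gen.cap) :: w') = bk a b ((0, Gen.cup) :: w') := by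
    have h3 := bk_zag hab hu0 (i := 0) (by norm_num) ((0, Gen.cup) :: (1, Gen.cap) :: w')
    have h4 := bk_zig hab hu0 (i := 0) (by norm_num) w'
    simp only [List.singleton_append, zero_add] at h3 h4
    simp only [List.cons_append, List.nil_append]
    rw [h3, h4]
  rw [e0, h, e1, e2]
  ring

theorem val_div (M : ℤ) (k : ℕ) (h : ¬ (19 : ℤ) ∣ M) :
    padicValRat 19 ((M : ℚ) / 19 ^ k) = -(k : ℤ) := by
  have hM : (M : ℚ) ≠ 0 := by
    intro h0
    have : M = 0 := by exact_mod_cast h0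
    exact h (this ▸ dvd_zero _)
  rw [padicValRat.div hM (by positivity), padicValRat.of_int,
    padicValInt.eq_zero_of_not_dvd (by exact_mod_cast h), ← zpow_natCast, padicValRat.zpow, val19]
  simp

theorem t : S_SC := by
  intro n hn
  rcases hn with rfl | rfl
  · refine ⟨(1 + (19 ^ 4) ^ 2 - (19 ^ 4) ^ 3) / 19 ^ 5, ((19 ^ 4) ^ 3 + 19 ^ 4 - 1) / 19 ^ 7,
      ?_, ?_, ?_, ?_⟩
    · intro w hw
      have h := bk_con (a := 19) (b := 1 / 19) (by norm_num) 3 w hw
      have hD : ((19 : ℚ) ^ 2 + (1 / 19) ^ 2) ≠ 0 := by norm_num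
      apply mul_left_cancel₀ hD
      rw [h]
      norm_num
      ring
    · intro w hw
      have h := bk_con (a := 1 / 19) (b := 19) (by norm_num) 3 w hw
      have hD : (((1 : ℚ) / 19) ^ 2 + 19 ^ 2) ≠ 0 := by norm_num
      apply mul_left_cancel₀ hD
      rw [h]
      norm_num
      ring
    · norm_num
    · have h := val_div (-4898725341275824045397949324239) 12 (by norm_num)
      have e : ((1 + (19 ^ 4) ^ 2 - (19 ^ 4) ^ 3) / 19 ^ 5 * (((19 ^ 4) ^ 3 + 19 ^ 4 - 1) / 19 ^ 7) : ℚ) =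
          ((-4898725341275824045397949324239 : ℤ) : ℚ) / 19 ^ 12 := by norm_num
      rw [e, h]
      norm_num
  · refine ⟨(1 + (19 ^ 4) ^ 2 - (19 ^ 4) ^ 3 + (19 ^ 4) ^ 4 - (19 ^ 4) ^ 5) / 19 ^ 7,
      ((19 ^ 4) ^ 5 + (19 ^ 4) ^ 3 - (19 ^ 4) ^ 2 + 19 ^ 4 - 1) / 19 ^ 13, ?_, ?_, ?_, ?_⟩
    · intro w hw
      have h := bk_con (a := 19) (b := 1 / 19) (by norm_num) 5 w hw
      have hD : ((19 : ℚ) ^ 2 + (1 / 19) ^ 2) ≠ 0 := by norm_num
      apply mul_left_cancel₀ hD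
      rw [h]
      norm_num
      ring
    · intro w hw
      have h := bk_con (a := 1 / 19) (b := 19) (by norm_num) 5 w hw
      have hD : (((1 : ℚ) / 19) ^ 2 + 19 ^ 2) ≠ 0 := by norm_num
      apply mul_left_cancel₀ hD
      rw [h]
      norm_num
      ring
    · norm_num
    · have h := val_div (-1412995262200324557828133969464207135598772244903599) 20 (by norm_num)
      have e : ((1 + (19 ^ 4) ^ 2 - (19 ^ 4) ^ 3 + (19 ^ 4) ^ 4 - (19 ^ 4) ^ 5) / 19 ^ 7 *
          (((19 ^ 4) ^ 5 + (19 ^ 4) ^ 3 - (19 ^ 4) ^ 2 + 19 ^ 4 - 1) / 19 ^ 13) : ℚ) =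
          ((-1412995262200324557828133969464207135598772244903599 : ℤ) : ℚ) / 19 ^ 20 := by norm_num
      rw [e, h]
      norm_num

end Pool.Agent.Helper70.LN.SC
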